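import Pool.Agent.MP_3312ae_al.HR.Spec

/-! Row B2: a closed subgroup that is minimal among those containing a conjugate of every
`p`-element is a `p`-group. -/

set_option autoImplicit false

namespace Pool.Agent.MP_3312ae_al.HR

namespace SylowC

/-- finite case: every `p`-element is conjugate into a given Sylow subgroup -/
theorem fin_conj {p : ℕ} [Fact p.Prime] {H : Type} [Group H] [Finite H] (Q : Sylow p H) (x : H)
    (hx : ∃ k : ℕ, x ^ p ^ k = 1) : ∃ y : H, y * x * y⁻¹ ∈ (Q : Subgroup H) := by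
  have h1 : IsPGroup p (Subgroup.zpowers x) := by
    obtain ⟨k, hk⟩ := hx
    rintro ⟨_, n, rfl⟩
    refine ⟨k, Subtype.ext ?_⟩
    simp only [SubgroupClass.coe_pow, OneMemClass.coe_one]
    rw [← zpow_natCast, ← zpow_mul, mul_comm, zpow_mul, zpow_natCast, hk, one_zpow]
  obtain ⟨R, hR⟩ := h1.exists_le_sylow
  obtain ⟨y, rfl⟩ := MulAction.exists_smul_eq H R Q
  refine ⟨y, ?_⟩
  rw [Sylow.coe_subgroup_smul]
  exact Subgroup.smul_mem_pointwise_smul x (MulAut.conj y) _ (hR (Subgroup.mem_zpowers x))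

variable {G : Type} [Group G] [TopologicalSpace G] [IsTopologicalGroup G]

/-- closed subgroups containing a conjugate of every `p`-element -/
def Full (p : ℕ) (P : Subgroup G) : Prop :=
  IsClosed (P : Set G) ∧ ∀ g : G, (∃ k : ℕ, g ^ p ^ k = 1) → ∃ h : G, h * g * h⁻¹ ∈ P

theorem exists_min [CompactSpace G] (p : ℕ) :
    ∃ P : Subgroup G, Full p P ∧ ∀ Q, Full p Q → Q ≤ P → P ≤ Q := by
  have := zorn_le₀ (α := (Subgroup G)ᵒᵈ) {P | Full p (OrderDual.ofDual P)} (by
    intro c hc hch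
    refine ⟨OrderDual.toDual (⨅ P : c, OrderDual.ofDual P.1), ⟨?_, ?_⟩, ?_⟩
    · simp only [OrderDual.ofDual_toDual, Subgroup.coe_iInf]
      exact isClosed_iInter fun P => (hc P.2).1
    · intro g hg
      rcases isEmpty_or_nonempty c with he | he
      · exact ⟨1, Subgroup.mem_iInf.2 fun P => he.elim P⟩
      have hcl : ∀ P : c, IsClosed {h : G | h * g * h⁻¹ ∈ OrderDual.ofDual P.1} := fun P =>
        (hc P.2).1.preimage (f := fun h : G => h * g * h⁻¹) (by fun_prop)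
      obtain ⟨h, hh⟩ := IsCompact.nonempty_iInter_of_directed_nonempty_isCompact_isClosed
        (fun P : c => {h : G | h * g * h⁻¹ ∈ OrderDual.ofDual P.1})
        (fun P Q => by
          rcases hch.total P.2 Q.2 with h | h
          · exact ⟨Q, fun x hx => h hx, fun x hx => hx⟩
          · exact ⟨P, fun x hx => hx, fun x hx => h hx⟩)
        (fun P => (hc P.2).2 g hg) (fun P => (hcl P).isCompact) hcl
      exact ⟨h, Subgroup.mem_iInf.2 fun P => Set.mem_iInter.1 hh P⟩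
    · intro P hP
      exact iInf_le (fun P : c => OrderDual.ofDual P.1) ⟨P, hP⟩)
  obtain ⟨P, hP⟩ := this
  exact ⟨OrderDual.ofDual P, hP.prop, fun Q hQ h => hP.le_of_ge (y := OrderDual.toDual Q) hQ h⟩

theorem pow_mem [CompactSpace G] {p : ℕ} [Fact p.Prime] {P : Subgroup G} (hP : Full p P)
    (hm : ∀ Q, Full p Q → Q ≤ P → P ≤ Q) (N : OpenNormalSubgroup G) {g : G} (hg : g ∈ P) :
    ∃ k : ℕ, g ^ p ^ k ∈ N := by
  have hN : N.toSubgroup.Normal := N.isNormal'
  have hfin : Finite (G ⧸ N.toSubgroup) := Subgroup.quotient_finite_of_isOpen _ N.isOpen'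
  let f : G →* G ⧸ N.toSubgroup := QuotientGroup.mk' N.toSubgroup
  let H : Subgroup (G ⧸ N.toSubgroup) := P.map f
  obtain ⟨Q⟩ : Nonempty (Sylow p H) := inferInstance
  let R : Subgroup G := ((Q : Subgroup H).map H.subtype).comap f
  have hR : IsClosed (R : Set G) := by
    refine Subgroup.isClosed_of_isOpen _ (Subgroup.isOpen_mono (H₁ := N.toSubgroup) ?_ N.isOpen')
    intro x hx
    have : f x = 1 := (QuotientGroup.eq_one_iff x).2 hx
    show f x ∈ (Q : Subgroup H).map H.subtype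
    rw [this]
    exact one_mem _
  have hle := hm (P ⊓ R) ⟨hP.1.inter hR, fun x hx => ?_⟩ inf_le_left
  · obtain ⟨q, hq, e⟩ := (hle hg).2
    obtain ⟨k, hk⟩ := Q.isPGroup' ⟨q, hq⟩
    refine ⟨k, (QuotientGroup.eq_one_iff (N := N.toSubgroup) _).1 ?_⟩
    have h1 : (q : G ⧸ N.toSubgroup) ^ p ^ k = 1 := by
      have := congrArg (fun z : (Q : Subgroup H) => ((z : H) : G ⧸ N.toSubgroup)) hk
      simpa using this
    have h2 : (q : G ⧸ N.toSubgroup) = f g := e
    rw [h2, ← map_pow] at h1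
    exact h1
  · obtain ⟨h, hh⟩ := hP.2 x hx
    obtain ⟨k, hk⟩ := hx
    obtain ⟨⟨_, y, hy, rfl⟩, hq⟩ := fin_conj Q ⟨f (h * x * h⁻¹), _, hh, rfl⟩ ⟨k, Subtype.ext (by
      simp only [SubgroupClass.coe_pow, OneMemClass.coe_one]
      rw [← map_pow, conj_pow, hk]
      simp)⟩
    have e : y * h * x * (y * h)⁻¹ = y * (h * x * h⁻¹) * y⁻¹ := by group
    refine ⟨y * h, ?_⟩
    rw [e]
    refine ⟨P.mul_mem (P.mul_mem hy hh) (P.inv_mem hy), _, hq, ?_⟩
    simp

end SylowC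

theorem sylowConj : SylowConj := by
  intro G _ _ _ _ _ _ ht p hp
  have : Fact p.Prime := ⟨hp⟩
  obtain ⟨P, hP, hm⟩ := SylowC.exists_min (G := G) p
  refine ⟨P, hP.1, ?_, hP.2⟩
  rintro ⟨g, hg⟩
  have h0 : orderOf g ≠ 0 := (ht g).orderOf_pos.ne'
  obtain ⟨k, m, hm', e⟩ := Nat.exists_eq_pow_mul_and_not_dvd h0 p hp.ne_one
  refine ⟨k, Subtype.ext ?_⟩
  simp only [SubgroupClass.coe_pow, OneMemClass.coe_one]
  by_contra hne
  obtain ⟨N, hN⟩ := ProfiniteGrp.exist_openNormalSubgroup_sub_open_nhds_of_one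
    (U := {g ^ p ^ k}ᶜ) isOpen_compl_singleton (fun h => hne (Set.mem_singleton_iff.1 h).symm)
  obtain ⟨j, hj⟩ := SylowC.pow_mem hP hm N (pow_mem hg (p ^ k))
  have h1 : (g ^ p ^ k) ^ m = 1 := by rw [← pow_mul, ← e, pow_orderOf_eq_one]
  have hc : Nat.Coprime (p ^ j) m := ((Nat.Prime.coprime_iff_not_dvd hp).2 hm').pow_left j
  have ho : Nat.Coprime (p ^ j) (orderOf (g ^ p ^ k)) :=
    hc.coprime_dvd_right (orderOf_dvd_of_pow_eq_one h1)
  obtain ⟨n, hn⟩ := exists_pow_eq_self_of_coprime ho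
  have : g ^ p ^ k ∈ N := by rw [← hn]; exact pow_mem hj n
  exact hN this rfl

end Pool.Agent.MP_3312ae_al.HR
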