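import Pool.Agent.MP_3312ae_al.HR.Spec

/-! Block B, part 1: minimal closed subgroups, relative Sylow subgroups, profinite Sylow. -/

set_option autoImplicit false

namespace Pool.Agent.MP_3312ae_al.HR.B

theorem sep {G : Type} [Group G] [TopologicalSpace G] [IsTopologicalGroup G] [CompactSpace G]
    [T2Space G] [TotallyDisconnectedSpace G] {g : G} (hg : g ≠ 1) :
    ∃ U : OpenNormalSubgroup G, g ∉ U.toSubgroup := by
  obtain ⟨U, hU⟩ := ProfiniteGrp.exist_openNormalSubgroup_sub_open_nhds_of_one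
    (isOpen_compl_singleton (x := g)) (by simpa using hg.symm)
  exact ⟨U, fun h => hU h rfl⟩

theorem exists_minimal {G ι : Type} [Group G] [TopologicalSpace G] [CompactSpace G]
    (A : ι → Set G) (hA : ∀ i, IsClosed (A i)) (f : ι → G → G) (hf : ∀ i, Continuous (f i))
    (h0 : ∀ i, (A i).Nonempty) : ∃ H : Subgroup G, IsClosed (H : Set G) ∧
      (∀ i, ∃ g ∈ A i, f i g ∈ H) ∧ ∀ L : Subgroup G, L ≤ H → IsClosed (L : Set G) →
        (∀ i, ∃ g ∈ A i, f i g ∈ L) → L = H := by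
  let S : Set (Subgroup G)ᵒᵈ :=
    {L : Subgroup G | IsClosed (L : Set G) ∧ ∀ i, ∃ g ∈ A i, f i g ∈ L}
  obtain ⟨H, -, hH⟩ := zorn_le_nonempty₀ S (fun c hc hch y hy => by
    refine ⟨(sInf (c : Set (Subgroup G)) : Subgroup G), ⟨?_, fun i => ?_⟩,
      fun z hz => (sInf_le hz : (sInf (c : Set (Subgroup G)) : Subgroup G) ≤ z)⟩
    · exact (Subgroup.coe_sInf (show Set (Subgroup G) from c)).symm ▸
        isClosed_biInter fun L hL => (hc hL).1
    · have : Nonempty c := ⟨⟨y, hy⟩⟩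
      let t : c → Set G := fun L => A i ∩ f i ⁻¹' ((show Subgroup G from L.1) : Set G)
      have hcl : ∀ L, IsClosed (t L) := fun L => (hA i).inter ((hc L.2).1.preimage (hf i))
      obtain ⟨g, hg⟩ := IsCompact.nonempty_iInter_of_directed_nonempty_isCompact_isClosed t
        (fun L L' => by
          rcases hch.total L.2 L'.2 with h | h
          · exact ⟨L', fun x hx => ⟨hx.1, h hx.2⟩, fun x hx => hx⟩
          · exact ⟨L, fun x hx => hx, fun x hx => ⟨hx.1, h hx.2⟩⟩)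
        (fun L => (hc L.2).2 i) (fun L => (hcl L).isCompact) hcl
      rw [Set.mem_iInter] at hg
      exact ⟨g, (hg ⟨y, hy⟩).1, Subgroup.mem_sInf.2 fun L hL => (hg ⟨L, hL⟩).2⟩)
    (⊤ : Subgroup G) ⟨isClosed_univ, fun i => (h0 i).imp fun g hg => ⟨hg, trivial⟩⟩
  exact ⟨H, hH.1.1, hH.1.2, fun L hL h1 h2 => le_antisymm hL (hH.2 (y := L) ⟨h1, h2⟩ hL)⟩

/-- A Sylow subgroup of `B / U`, pulled back. -/
theorem sy {H : Type} [Group H] (U B : Subgroup H) [U.Normal] [U.FiniteIndex] (hUB : U ≤ B)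
    (p : ℕ) [Fact p.Prime] : ∃ P : Subgroup H, U ≤ P ∧ P ≤ B ∧ (∀ x ∈ P, ∃ a, x ^ p ^ a ∈ U) ∧
      (B.Normal → Subgroup.normalizer (P : Set H) ⊔ B = ⊤) ∧ ¬ p ∣ P.relIndex B ∧
      ∀ x ∈ B, (∃ a, x ^ p ^ a ∈ U) → ∃ b ∈ B, b * x * b⁻¹ ∈ P := by
  let π := QuotientGroup.mk' U
  have hπ : Function.Surjective π := QuotientGroup.mk'_surjective U
  have hB : (B.map π).comap π = B :=
    Subgroup.comap_map_eq_self (by rwa [QuotientGroup.ker_mk'])
  obtain ⟨S⟩ : Nonempty (Sylow p (B.map π)) := inferInstance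
  refine ⟨(S.1.map (B.map π).subtype).comap π, fun x hx => ?_, ?_, fun x hx => ?_, fun hN => ?_,
    ?_, fun x hx hx' => ?_⟩
  · rw [Subgroup.mem_comap, show π x = 1 from (QuotientGroup.eq_one_iff x).2 hx]
    exact one_mem _
  · exact (Subgroup.comap_mono (Subgroup.map_subtype_le _)).trans hB.le
  · obtain ⟨s, hs, e⟩ := hx
    obtain ⟨a, ha⟩ := S.isPGroup' ⟨s, hs⟩
    refine ⟨a, (QuotientGroup.eq_one_iff _).1 ?_⟩
    have h1 : s ^ p ^ a = 1 := congrArg Subtype.val ha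
    have h2 := congrArg (B.map π).subtype h1
    rwa [map_pow, e, ← map_pow, map_one] at h2
  · have := hN.map π hπ
    have h1 := congrArg (Subgroup.comap π) (S.normalizer_sup_eq_top)
    rwa [← Subgroup.comap_sup_eq π _ _ hπ, Subgroup.comap_normalizer_eq_of_surjective _ hπ, hB,
      Subgroup.comap_top] at h1
  · rw [Subgroup.relIndex_comap, Subgroup.relIndex, Subgroup.subgroupOf,
      Subgroup.comap_map_eq_self_of_injective (B.map π).subtype_injective]
    exact S.not_dvd_index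
  · obtain ⟨a, ha⟩ := hx'
    let y : B.map π := ⟨π x, x, hx, rfl⟩
    have hy : IsPGroup p (Subgroup.zpowers y) := by
      rintro ⟨_, i, rfl⟩
      refine ⟨a, Subtype.ext ?_⟩
      have : y ^ p ^ a = 1 := Subtype.ext ((QuotientGroup.eq_one_iff _).2 ha)
      show (y ^ i) ^ p ^ a = 1
      rw [← zpow_natCast, ← zpow_mul, mul_comm, zpow_mul, zpow_natCast, this, one_zpow]
    obtain ⟨Q, hQ⟩ := hy.exists_le_sylow
    obtain ⟨g, hg⟩ := MulAction.exists_smul_eq (B.map π) Q S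
    obtain ⟨_, b, hb, rfl⟩ := g
    refine ⟨b, hb, ⟨π b, b, hb, rfl⟩ * y * (⟨π b, b, hb, rfl⟩ : B.map π)⁻¹, ?_, by simp [y]⟩
    rw [← hg]
    exact Subgroup.smul_mem_pointwise_smul _ _ _ (hQ (Subgroup.mem_zpowers y))

theorem mem_of_coprime {H : Type} [Group H] {U : Subgroup H} {x : H} {m n : ℕ}
    (h : m.Coprime n) (hm : x ^ m ∈ U) (hn : x ^ n ∈ U) : x ∈ U := by
  have e : x = (x ^ m) ^ (m.gcdA n) * (x ^ n) ^ (m.gcdB n) := by
    rw [← zpow_natCast, ← zpow_natCast, ← zpow_mul, ← zpow_mul, ← zpow_add,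
      ← Nat.gcd_eq_gcd_ab, h.gcd_eq_one]
    simp
  rw [e]
  exact U.mul_mem (U.zpow_mem hm _) (U.zpow_mem hn _)

end Pool.Agent.MP_3312ae_al.HR.B

namespace Pool.Agent.MP_3312ae_al.HR

open B

theorem B.sylowConj' : SylowConj := by
  intro G _ _ _ _ _ _ hT p hp
  have := Fact.mk hp
  obtain ⟨P, hc, h1, h2⟩ := exists_minimal (ι := {g : G // ∃ k : ℕ, g ^ p ^ k = 1})
    (fun _ => Set.univ) (fun _ => isClosed_univ) (fun g h => h * g.1 * h⁻¹)
    (fun _ => by fun_prop) (fun _ => Set.univ_nonempty)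
  refine ⟨P, hc, fun x => ?_, fun g hg => (h1 ⟨g, hg⟩).imp fun h hh => hh.2⟩
  have hn : orderOf x.1 ≠ 0 := (hT x.1).orderOf_pos.ne'
  refine ⟨(orderOf x.1).factorization p, Subtype.ext ?_⟩
  by_contra hne
  obtain ⟨U, hU⟩ := sep (g := x.1 ^ p ^ (orderOf x.1).factorization p) hne
  have : U.toSubgroup.FiniteIndex := U.toOpenSubgroup.finiteIndex_of_finite_quotient
  obtain ⟨S, s1, -, s3, -, -, s6⟩ := sy U.toSubgroup (U.toSubgroup ⊔ P) le_sup_left p
  have hS : IsClosed (S : Set G) :=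
    S.isClosed_of_isOpen (Subgroup.isOpen_mono s1 U.toOpenSubgroup.isOpen)
  have h3 := h2 (P ⊓ S) inf_le_left (hc.inter hS) fun g => by
    obtain ⟨h, -, hh⟩ := h1 g
    obtain ⟨k, hk⟩ := g.2
    obtain ⟨b, hb, hb'⟩ := s6 _ (Subgroup.mem_sup_right hh)
      ⟨k, by rw [conj_pow, hk]; simp⟩
    obtain ⟨u, hu, v, hv, rfl⟩ := Subgroup.mem_sup_of_normal_left.1 hb
    refine ⟨v * h, trivial, ?_, ?_⟩
    · have := P.mul_mem (P.mul_mem hv hh) (P.inv_mem hv)
      simpa [mul_assoc] using this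
    · have := S.mul_mem (S.mul_mem (S.inv_mem (s1 hu)) hb') (s1 hu)
      simpa [mul_assoc] using this
  obtain ⟨a, ha⟩ := s3 x.1 (h3.ge x.2).2
  refine hU (mem_of_coprime (m := p ^ a) (n := ordCompl[p] (orderOf x.1))
    ((Nat.coprime_ordCompl hp hn).pow_left a) ?_ ?_)
  · rw [← pow_mul, mul_comm, pow_mul]
    exact pow_mem ha _
  · rw [← pow_mul, Nat.ordProj_mul_ordCompl_eq_self, pow_orderOf_eq_one]
    exact one_mem _

end Pool.Agent.MP_3312ae_al.HR
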