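import Pool.Agent.MP_3312ae_al.HR.B.Min
import Pool.Agent.MP_3312ae_al.H59.Top

/-! Block B, part 5: Herfort's theorem. -/

set_option autoImplicit false

namespace Pool.Agent.MP_3312ae_al.HR

open B

theorem B.claimA {G : Type} [Group G] [TopologicalSpace G] [IsTopologicalGroup G] [CompactSpace G]
    [T2Space G] [TotallyDisconnectedSpace G] (hT : ∀ g : G, IsOfFinOrder g)
    (hI : {p : ℕ | p.Prime ∧ ∃ g : G, p ∣ orderOf g}.Infinite) (b : ℕ) :
    ∃ t : G, b < orderOf t ∧ (PC t).Infinite := by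
  let X := {U : Subgroup G // U.Normal ∧ IsOpen (U : Set G)} × ℕ
  have step : ∀ x : X, ∃ y : X, y.1.1 ≤ x.1.1 ∧ x.2 < y.2 ∧ y.2.Prime ∧
      ∃ g ∈ x.1.1, g ∉ y.1.1 ∧ g ^ y.2 ∈ y.1.1 := by
    rintro ⟨⟨U, hU, hU'⟩, c⟩
    have := fi hU'
    obtain ⟨q, ⟨hq, g, hg⟩, hlt⟩ := hI.exists_gt (max c U.index)
    have ho := orderOf_pow_orderOf_div (hT g).orderOf_pos.ne' hg
    set g' := g ^ (orderOf g / q)
    have h1 : g' ^ q = 1 := ho ▸ pow_orderOf_eq_one g'
    obtain ⟨U', h2⟩ := sep (g := g') fun h => hq.ne_one (by rw [← ho, h, orderOf_one])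
    refine ⟨⟨⟨U ⊓ U'.toSubgroup, inferInstance, hU'.inter U'.toOpenSubgroup.isOpen⟩, q⟩,
      inf_le_left, lt_of_le_of_lt (le_max_left _ _) hlt, hq, g', ?_, fun h => h2 h.2,
      by rw [h1]; exact one_mem _⟩
    refine mem_of_coprime ((Nat.Prime.coprime_iff_not_dvd hq).2 fun hd => ?_)
      (h1 ▸ one_mem _) (Subgroup.pow_index_mem U g')
    have := Nat.le_of_dvd (Nat.pos_of_ne_zero Subgroup.FiniteIndex.index_ne_zero) hd
    have := le_max_right c U.index
    omega
  choose f f1 f2 f3 f4 using step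
  let x : ℕ → X := fun n => f^[n] ⟨⟨⊤, inferInstance, isOpen_univ⟩, b⟩
  have hx : ∀ n, x (n + 1) = f (x n) := fun n => Function.iterate_succ_apply' f n _
  let N : ℕ → Subgroup G := fun n => (x n).1.1
  let p : ℕ → ℕ := fun n => (x (n + 1)).2
  have hm : StrictMono fun n => (x n).2 := strictMono_nat_of_lt_succ fun n => by
    rw [hx]; exact f2 _
  have hcl : ∀ n, IsClosed (N n : Set G) := fun n => (N n).isClosed_of_isOpen (x n).1.2.2
  obtain ⟨H, h1, h2, h3⟩ := exists_minimal (fun i => {g | Wit N p i g})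
    (fun i => (hcl i).inter ((x (i + 1)).1.2.2.isClosed_compl.inter
      ((hcl (i + 1)).preimage (continuous_pow _)))) (fun _ g => g) (fun _ => continuous_id)
    (fun i => by
      obtain ⟨g, g1, g2, g3⟩ := f4 (x i)
      rw [← hx] at g2 g3
      exact ⟨g, g1, g2, g3⟩)
  have : CompactSpace H := isCompact_iff_compactSpace.1 h1.isCompact
  let D : MinSeq H :=
    { N := fun i => (N i).comap H.subtype
      p := p
      normal := fun i => (x i).1.2.1.comap _
      isOpen := fun i => (x i).1.2.2.preimage continuous_subtype_val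
      anti := antitone_nat_of_succ_le fun i => Subgroup.comap_mono (by
        simp only [N]; rw [hx]; exact f1 _)
      zero := Subgroup.comap_top _
      prime := fun i => by simp only [p]; rw [hx]; exact f3 _
      mono := fun i j h => hm (Nat.succ_lt_succ h)
      wit := fun i => let ⟨g, hg, hg'⟩ := h2 i; ⟨⟨g, hg'⟩, hg⟩
      min := fun L hL hw => by
        have := h3 (L.map H.subtype) (Subgroup.map_subtype_le L)
          (h1.isClosedEmbedding_subtypeVal.isClosedMap _ hL) fun i =>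
            let ⟨g, hg, hg'⟩ := hw i; ⟨g.1, hg', g, hg, rfl⟩
        refine eq_top_iff.2 fun g _ => ?_
        obtain ⟨g', hg', e⟩ := this.ge g.2
        rwa [← Subtype.ext e] }
  obtain ⟨i, t, ht, hI'⟩ := D.claim fun g => H.subtype_injective.isOfFinOrder_iff.1 (hT g.1)
  refine ⟨t.1, ?_, hI'.mono ?_⟩
  · rw [Subgroup.orderOf_coe, ht]
    exact hm (Nat.succ_pos i)
  · rintro s ⟨hs, y, h4, h5⟩
    exact ⟨hs, y.1, congrArg Subtype.val h4, by rwa [Subgroup.orderOf_coe]⟩

theorem herfort : Herfort := by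
  intro G _ _ _ _ _ _ hT
  by_contra hI
  let X := {K : Subgroup G // IsClosed (K : Set G) ∧
    {p : ℕ | p.Prime ∧ ∃ g : K, p ∣ orderOf g}.Infinite} × ℕ
  have step : ∀ x : X, ∃ (y : X) (t : G), t ∈ x.1.1 ∧ x.2 < y.2 ∧ orderOf t = y.2 ∧
      y.1.1 ≤ x.1.1 ∧ ∀ g ∈ y.1.1, Commute t g := by
    rintro ⟨⟨K, hK, hK'⟩, c⟩
    have : CompactSpace K := isCompact_iff_compactSpace.1 hK.isCompact
    obtain ⟨t, h1, h2⟩ := claimA (G := K)
      (fun g => K.subtype_injective.isOfFinOrder_iff.1 (hT g.1)) hK' c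
    refine ⟨⟨⟨K ⊓ Subgroup.centralizer {t.1}, hK.inter (Set.isClosed_centralizer _), h2.mono ?_⟩,
      orderOf t⟩, t.1, t.2, h1, Subgroup.orderOf_coe t, inf_le_left, fun g hg => hg.2 _ rfl⟩
    rintro s ⟨hs, y, h4, h5⟩
    refine ⟨hs, ⟨y.1, y.2, ?_⟩, by rwa [← Subgroup.orderOf_coe, Subgroup.orderOf_coe y]⟩
    rintro _ rfl
    exact congrArg Subtype.val h4
  choose f t f1 f2 f3 f4 f5 using step
  let x : ℕ → X := fun n => f^[n] ⟨⟨⊤, isClosed_univ, Set.Infinite.mono (fun s hs =>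
    ⟨hs.1, let ⟨g, hg⟩ := hs.2; ⟨⟨g, trivial⟩, by rwa [← Subgroup.orderOf_coe]⟩⟩) hI⟩, 0⟩
  have hx : ∀ n, x (n + 1) = f (x n) := fun n => Function.iterate_succ_apply' f n _
  have hm : StrictMono fun n => (x n).2 := strictMono_nat_of_lt_succ fun n => by
    rw [hx]; exact f2 _
  have ha : Antitone fun n => (x n).1.1 := antitone_nat_of_succ_le fun n => by
    rw [hx]; exact f4 _
  have hlt : ∀ i j, i < j → Commute (t (x i)) (t (x j)) := fun i j h =>
    f5 _ _ (hx i ▸ ha h (f1 (x j)))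
  have hc : ∀ i j, Commute (t (x i)) (t (x j)) := fun i j => by
    rcases lt_trichotomy i j with h | rfl | h
    · exact hlt i j h
    · rfl
    · exact (hlt j i h).symm
  let C := Subgroup.centralizer (Set.range fun i => t (x i))
  let A := C ⊓ Subgroup.centralizer (C : Set G)
  have hA : IsClosed (A : Set G) := (Set.isClosed_centralizer _).inter (Set.isClosed_centralizer _)
  have : CompactSpace A := isCompact_iff_compactSpace.1 hA.isCompact
  obtain ⟨y, n, hn, hy⟩ := H59.exists_coset (C := A)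
    fun g => A.subtype_injective.isOfFinOrder_iff.1 (hT g.1)
  obtain ⟨M, hM⟩ := ProfiniteGrp.exist_openNormalSubgroup_sub_open_nhds_of_one isOpen_interior
    (mem_interior_iff_mem_nhds.2 hy)
  obtain ⟨e, he, he'⟩ := H59.exp_of_open M hn fun w hw => by
    have h1 : (y * w) ^ n = 1 := (interior_subset (hM hw) : w ∈ {w | (y * w) ^ n = 1})
    have h2 : y ^ n = 1 := by simpa using hy.self_of_nhds
    have h3 : Commute y w := Subtype.ext (w.2.2 _ y.2.1)
    rwa [h3.mul_pow, h2, one_mul] at h1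
  have h1 : t (x e) ∈ A := ⟨by rintro _ ⟨i, rfl⟩; exact hc i e, fun g hg => (hg _ ⟨e, rfl⟩).symm⟩
  have h2 : orderOf (t (x e)) ∣ e :=
    orderOf_dvd_of_pow_eq_one (congrArg Subtype.val (he' ⟨_, h1⟩))
  have h3 := Nat.le_of_dvd he h2
  have h4 : e + 1 ≤ (x (e + 1)).2 := hm.le_apply
  rw [f3, ← hx] at h3
  omega

end Pool.Agent.MP_3312ae_al.HR
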