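import Pool.Agent.MP_3312ae_al.HR.B.Tower

/-! Block B, part 3: lifting centralisers through coprime sections. -/

set_option autoImplicit false
set_option linter.unusedSectionVars false

namespace Pool.Agent.MP_3312ae_al.HR.B

theorem fixpt {X : Type} [Group X] [Finite X] (M : Subgroup X) [hM : M.Normal] {q : ℕ}
    (hq : q.Prime) (hc : ¬ q ∣ Nat.card M) {x z : X} (hx : x ^ q = 1)
    (hz : z⁻¹ * x * z * x⁻¹ ∈ M) : ∃ m ∈ M, Commute x (z * m) := by
  classical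
  have := Fact.mk hq
  have := Fintype.ofFinite M
  let f : Function.End M := fun m => ⟨z⁻¹ * x * z * x⁻¹ * (x * m * x⁻¹),
    M.mul_mem hz (hM.conj_mem _ m.2 x)⟩
  have hf : ∀ (j : ℕ) (m : M), ((f ^ j) m : X) = z⁻¹ * x ^ j * z * m * (x ^ j)⁻¹ := by
    intro j m
    induction j with
    | zero => simp; rfl
    | succ j ih =>
      rw [pow_succ' f]
      show z⁻¹ * x * z * x⁻¹ * (x * ((f ^ j) m : X) * x⁻¹) = _
      rw [ih, pow_succ']
      group
  have h1 : f ^ q ^ 1 = 1 := funext fun m => Subtype.ext (by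
    rw [pow_one, hf, hx]; simp; rfl)
  have h2 := Equiv.Perm.card_fixedPoints_modEq h1
  by_contra hne
  have : IsEmpty f.fixedPoints := ⟨fun m => hne ⟨m.1, m.1.2, by
    have e : z⁻¹ * x * z * x⁻¹ * (x * m.1 * x⁻¹) = m.1 := congrArg Subtype.val m.2
    calc x * (z * m.1) = z * (z⁻¹ * x * z * x⁻¹ * (x * m.1 * x⁻¹)) * x := by group
      _ = z * m.1 * x := by rw [e]⟩⟩
  rw [Fintype.card_eq_zero (α := f.fixedPoints), ← Nat.card_eq_fintype_card] at h2
  exact hc (Nat.modEq_zero_iff_dvd.1 h2)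

theorem not_dvd_card {H : Type} [Group H] (U B : Subgroup H) [U.Normal] [U.FiniteIndex]
    {c : ℕ → Prop} {q : ℕ} (hq : q.Prime) (hc : ¬ c q) (h : ∀ x ∈ B, Pw c U x) :
    ¬ q ∣ Nat.card (B.map (QuotientGroup.mk' U)) := fun hd => by
  have := Fact.mk hq
  obtain ⟨⟨_, b, hb, rfl⟩, h1⟩ := exists_prime_orderOf_dvd_card' q hd
  rw [← Subgroup.orderOf_coe] at h1
  have h2 : b ^ q ^ 1 ∈ U := by
    rw [pow_one, ← QuotientGroup.eq_one_iff, QuotientGroup.mk_pow, ← h1]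
    exact pow_orderOf_eq_one _
  have h3 : QuotientGroup.mk' U b = 1 := (QuotientGroup.eq_one_iff _).2 ((h b hb).mem hq hc h2)
  rw [show ((⟨_, b, hb, rfl⟩ : B.map (QuotientGroup.mk' U)) : H ⧸ U) = 1 from h3,
    orderOf_one] at h1
  exact hq.ne_one h1.symm

variable {G : Type} [Group G] [TopologicalSpace G] [IsTopologicalGroup G] [CompactSpace G]
  [T2Space G] [TotallyDisconnectedSpace G]

theorem fi {U : Subgroup G} (h : IsOpen (U : Set G)) : U.FiniteIndex := by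
  have := U.quotient_finite_of_isOpen h
  exact U.finiteIndex_of_finite_quotient

theorem sep' {g : G} (h : ∀ U : Subgroup G, U.Normal → IsOpen (U : Set G) → g ∈ U) : g = 1 := by
  by_contra hne
  obtain ⟨U, hU⟩ := sep hne
  exact hU (h _ inferInstance U.toOpenSubgroup.isOpen)

/-- Towers exist below every open normal subgroup. -/
def TW (G : Type) [Group G] [TopologicalSpace G] : Prop :=
  ∀ U : Subgroup G, U.Normal → IsOpen (U : Set G) →
    ∃ (U' : Subgroup G) (c : ℕ), U'.Normal ∧ U'.FiniteIndex ∧ U' ≤ U ∧ Tw c U'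

theorem lift_aux (hW : TW G) {q s a : ℕ} (hq : q.Prime) (hs : s.Prime) (hqs : q < s) {x z : G}
    (hx : x ^ q = 1) (hz : z ^ s ^ a = 1) {U₀ : Subgroup G} [hN : U₀.Normal]
    (hU₀ : IsOpen (U₀ : Set G)) (hc : z⁻¹ * x * z * x⁻¹ ∈ U₀) :
    ∃ y, z⁻¹ * y ∈ U₀ ∧ Commute x y := by
  let ι := {U : Subgroup G // U.Normal ∧ IsOpen (U : Set G)}
  have : Nonempty ι := ⟨⟨U₀, hN, hU₀⟩⟩
  let t : ι → Set G := fun U => {y | z⁻¹ * y ∈ U₀} ∩ {y | x * y * x⁻¹ * y⁻¹ ∈ U.1}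
  have hcl : ∀ U, IsClosed (t U) := fun U =>
    ((U₀.isClosed_of_isOpen hU₀).preimage (by fun_prop)).inter
      ((U.1.isClosed_of_isOpen U.2.2).preimage (f := fun y => x * y * x⁻¹ * y⁻¹) (by fun_prop))
  obtain ⟨y, hy⟩ := IsCompact.nonempty_iInter_of_directed_nonempty_isCompact_isClosed t
    (fun U U' => ⟨⟨U.1 ⊓ U'.1, by have := U.2.1; have := U'.2.1; infer_instance,
      U.2.2.inter U'.2.2⟩, fun y hy => ⟨hy.1, hy.2.1⟩, fun y hy => ⟨hy.1, hy.2.2⟩⟩)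
    (fun U => by
      have := U.2.1
      obtain ⟨U', c, h1, h2, h3, h4⟩ := hW (U.1 ⊓ U₀) inferInstance (U.2.2.inter hU₀)
      obtain ⟨B, b1, b2, b3, b4⟩ := h4.split h1 q
      have hzB : z ∈ B := (b4 z).mem hs (not_le.2 hqs) (hz ▸ one_mem _)
      let π := QuotientGroup.mk' U'
      have := (inferInstance : (B ⊓ U₀).Normal).map π (QuotientGroup.mk'_surjective U')
      obtain ⟨_, ⟨m, hm, rfl⟩, h5⟩ := fixpt ((B ⊓ U₀).map π) hq
        (not_dvd_card U' _ hq (lt_irrefl q) fun b hb => b3 b hb.1) (x := π x) (z := π z)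
        (by rw [← map_pow, hx, map_one]) ⟨z⁻¹ * x * z * x⁻¹, ⟨by
          rw [mul_assoc, mul_assoc, ← mul_assoc x]
          exact B.mul_mem (B.inv_mem hzB) (b1.conj_mem _ hzB x), hc⟩, by simp⟩
      refine ⟨z * m, by simpa using hm.2, (h3 ?_).1⟩
      rw [← QuotientGroup.eq_one_iff]
      show π _ = 1
      rw [map_mul, map_mul, map_mul, map_mul, h5.eq]
      simp)
    (fun U => (hcl U).isCompact) hcl
  rw [Set.mem_iInter] at hy
  refine ⟨y, (hy ⟨U₀, hN, hU₀⟩).1, ?_⟩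
  have h1 : x * y * x⁻¹ * y⁻¹ = 1 := sep' fun U h1 h2 => (hy ⟨U, h1, h2⟩).2
  calc x * y = x * y * x⁻¹ * y⁻¹ * (y * x) := by group
    _ = y * x := by rw [h1, one_mul]

theorem lift_comm (hT : ∀ g : G, IsOfFinOrder g) (hW : TW G) {q d : ℕ} (hq : q.Prime)
    (hqd : q ≤ d) {x z : G} (hx : x ^ q = 1) {U₀ : Subgroup G} [hN : U₀.Normal]
    (hU₀ : IsOpen (U₀ : Set G)) (hc : Commute (x : G ⧸ U₀) (z : G ⧸ U₀)) (hz : z ∉ U₀)
    (hw : Pw (d < ·) U₀ z) : ∃ s, s.Prime ∧ d < s ∧ ∃ y, Commute x y ∧ s ∣ orderOf y := by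
  obtain ⟨n, n1, n2, n3⟩ := hw
  have hd : orderOf (z : G ⧸ U₀) ∣ n := orderOf_dvd_of_pow_eq_one (by
    rw [← QuotientGroup.mk_pow, QuotientGroup.eq_one_iff]; exact n3)
  have h1 : orderOf (z : G ⧸ U₀) ≠ 1 := fun h =>
    hz ((QuotientGroup.eq_one_iff _).1 (orderOf_eq_one_iff.1 h))
  obtain ⟨s, hs, hsd⟩ := Nat.exists_prime_and_dvd h1
  have hn : orderOf z ≠ 0 := (hT z).orderOf_pos.ne'
  let m := ordCompl[s] (orderOf z)
  have hm : (z ^ m) ^ s ^ (orderOf z).factorization s = 1 := by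
    rw [← pow_mul, mul_comm, Nat.ordProj_mul_ordCompl_eq_self, pow_orderOf_eq_one]
  have hm' : z ^ m ∉ U₀ := fun h => by
    have h2 : orderOf (z : G ⧸ U₀) ∣ m := orderOf_dvd_of_pow_eq_one (by
      rw [← QuotientGroup.mk_pow, QuotientGroup.eq_one_iff]; exact h)
    exact Nat.not_dvd_ordCompl hs hn (hsd.trans h2)
  have hlt := n2 s hs (hsd.trans hd)
  obtain ⟨y, y1, y2⟩ := lift_aux hW hq hs (lt_of_le_of_lt hqd hlt) hx hm hU₀ (by
    rw [← QuotientGroup.eq_one_iff]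
    simp only [QuotientGroup.mk_mul, QuotientGroup.mk_inv, QuotientGroup.mk_pow]
    rw [mul_assoc _ _ ((z : G ⧸ U₀) ^ m), (hc.pow_right m).eq]
    group)
  refine ⟨s, hs, hlt, y, y2, ?_⟩
  by_contra hne
  have e : ((z ^ m : G) : G ⧸ U₀) = y := QuotientGroup.eq.2 y1
  have h3 : y ∈ U₀ := mem_of_coprime
    (((Nat.Prime.coprime_iff_not_dvd hs).2 hne).pow_left ((orderOf z).factorization s))
    (by rw [← QuotientGroup.eq_one_iff, QuotientGroup.mk_pow, ← e, ← QuotientGroup.mk_pow, hm]; rfl)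
    (by rw [pow_orderOf_eq_one]; exact one_mem _)
  exact hm' ((QuotientGroup.eq_one_iff _).1 (e.trans ((QuotientGroup.eq_one_iff _).2 h3)))

end Pool.Agent.MP_3312ae_al.HR.B
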