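import Pool.Agent.MP_3312ae_al.HR.B.Lift
import Pool.Agent.MP_3312ae_al.HR.E.Fox

/-! Block B, part 4: a minimal closed subgroup has Sylow towers and an element of prime order
whose centraliser involves infinitely many primes. -/

set_option autoImplicit false
set_option linter.unusedSectionVars false

namespace Pool.Agent.MP_3312ae_al.HR.B

open E

/-- The element `g` shows that `p i` divides the index of `N (i+1)` in `N i`. -/
def Wit {G : Type} [Group G] (N : ℕ → Subgroup G) (p : ℕ → ℕ) (i : ℕ) (g : G) : Prop :=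
  g ∈ N i ∧ g ∉ N (i + 1) ∧ g ^ p i ∈ N (i + 1)

/-- A minimal configuration. -/
structure MinSeq (G : Type) [Group G] [TopologicalSpace G] where
  N : ℕ → Subgroup G
  p : ℕ → ℕ
  normal : ∀ i, (N i).Normal
  isOpen : ∀ i, IsOpen (N i : Set G)
  anti : Antitone N
  zero : N 0 = ⊤
  prime : ∀ i, (p i).Prime
  mono : StrictMono p
  wit : ∀ i, ∃ g, Wit N p i g
  min : ∀ L : Subgroup G, IsClosed (L : Set G) → (∀ i, ∃ g ∈ L, Wit N p i g) → L = ⊤

/-- The primes dividing orders of elements commuting with `t`. -/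
def PC {G : Type} [Group G] (t : G) : Set ℕ := {s | s.Prime ∧ ∃ y, Commute t y ∧ s ∣ orderOf y}

namespace MinSeq

variable {G : Type} [Group G] [TopologicalSpace G] [IsTopologicalGroup G] [CompactSpace G]
  [T2Space G] [TotallyDisconnectedSpace G] (D : MinSeq G)

theorem wit_of_sup {M F : Subgroup G} [F.Normal] (h : M ⊔ F = ⊤) {i : ℕ} (hF : F ≤ D.N (i + 1)) :
    ∃ g ∈ M, Wit D.N D.p i g := by
  obtain ⟨g, g1, g2, g3⟩ := D.wit i
  obtain ⟨l, hl, f, hf, rfl⟩ := Subgroup.mem_sup_of_normal_right.1 (h ▸ Subgroup.mem_top g)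
  have := D.normal (i + 1)
  have e : ((l * f : G) : G ⧸ D.N (i + 1)) = l := QuotientGroup.mk_mul_of_mem _ (hF hf)
  refine ⟨l, hl, (Subgroup.mul_mem_cancel_right _ (D.anti (Nat.le_succ i) (hF hf))).1 g1,
    fun h => g2 (mul_mem h (hF hf)), ?_⟩
  rwa [← QuotientGroup.eq_one_iff, QuotientGroup.mk_pow, e, ← QuotientGroup.mk_pow,
    QuotientGroup.eq_one_iff] at g3

theorem stepP (k : ℕ) (h : Tw (D.p k) (D.N k)) : ∃ P : Subgroup G, P.Normal ∧ D.N (k + 1) ≤ P ∧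
    (∀ x ∈ P, ∃ a, x ^ D.p k ^ a ∈ D.N (k + 1)) ∧ (∃ g ∈ P, g ∉ D.N (k + 1)) ∧
    Tw (D.p k) P := by
  have := Fact.mk (D.prime k)
  have hN := D.normal (k + 1)
  have hk := D.normal k
  have := fi (D.isOpen (k + 1))
  obtain ⟨P, s1, s2, s3, s4, -, s6⟩ := sy (D.N (k + 1)) (D.N k) (D.anti k.le_succ) (D.p k)
  obtain ⟨g, g1, g2, g3⟩ := D.wit k
  obtain ⟨b, -, hb⟩ := s6 g g1 ⟨1, by rwa [pow_one]⟩
  have hw : Wit D.N D.p k (b * g * b⁻¹) := ⟨hk.conj_mem _ g1 b,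
    fun h => g2 (by simpa [mul_assoc] using hN.conj_mem _ h b⁻¹),
    by rw [conj_pow]; exact hN.conj_mem _ g3 b⟩
  have key : ∀ M, P ≤ M → M ⊔ D.N k = ⊤ → M = ⊤ := fun M h1 h2 => by
    refine D.min M (M.isClosed_of_isOpen (Subgroup.isOpen_mono (s1.trans h1) (D.isOpen _)))
      fun i => ?_
    rcases lt_trichotomy i k with hi | rfl | hi
    · exact D.wit_of_sup h2 (D.anti hi)
    · exact ⟨_, h1 hb, hw⟩
    · obtain ⟨g', hg'⟩ := D.wit i
      exact ⟨g', h1 (s1 (D.anti hi hg'.1)), hg'⟩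
  have hP : P.Normal := Subgroup.normalizer_eq_top_iff.1 (key _ Subgroup.le_normalizer (s4 hk))
  exact ⟨P, hP, s1, s3, ⟨_, hb, hw.2.1⟩,
    h.lift hk P hP (Subgroup.finiteIndex_of_le s1) s2 key⟩

theorem tower (k : ℕ) : Tw (D.p k) (D.N k) := by
  induction k with
  | zero => rw [D.zero]; exact Tw.top _
  | succ k ih =>
    obtain ⟨P, h1, h2, h3, -, h5⟩ := D.stepP k ih
    exact Tw.step (D.prime k) (D.mono k.lt_succ_self) h1 h2 h3 h5

theorem tw (D : MinSeq G) : TW G := by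
  intro U hU hU'
  have hI : (⨅ k, D.N k).Normal := Subgroup.normal_iInf_normal D.normal
  obtain ⟨m, hm⟩ : ∃ m, D.N m ≤ (⨅ k, D.N k) ⊔ U := by
    by_contra hne
    let t : ℕ → Set G := fun m => (D.N m : Set G) ∩ (((⨅ k, D.N k) ⊔ U : Subgroup G) : Set G)ᶜ
    have hcl : ∀ m, IsClosed (t m) := fun m => ((D.N m).isClosed_of_isOpen (D.isOpen m)).inter
      (Subgroup.isOpen_mono le_sup_right hU').isClosed_compl
    obtain ⟨x, hx⟩ := IsCompact.nonempty_iInter_of_sequence_nonempty_isCompact_isClosed t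
      (fun m x hx => ⟨D.anti m.le_succ hx.1, hx.2⟩)
      (fun m => by
        by_contra h
        refine hne ⟨m, fun x hx => ?_⟩
        by_contra h'
        exact h ⟨x, hx, h'⟩) (hcl 0).isCompact hcl
    rw [Set.mem_iInter] at hx
    exact (hx 0).2 (Subgroup.mem_sup_left (Subgroup.mem_iInf.2 fun k => (hx k).1))
  have hN := D.normal m
  have ho : IsOpen ((U ⊓ D.N m : Subgroup G) : Set G) := hU'.inter (D.isOpen m)
  refine ⟨U ⊓ D.N m, D.p m, inferInstance, fi ho, inf_le_left,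
    (D.tower m).lift hN _ inferInstance (fi ho) inf_le_right fun M h1 h2 => ?_⟩
  have h3 : M ⊔ ⨅ k, D.N k = ⊤ := by
    refine top_le_iff.1 (h2.ge.trans (sup_le le_sup_left fun x hx => ?_))
    obtain ⟨a, ha, u, hu, rfl⟩ := Subgroup.mem_sup_of_normal_right.1 (hm hx)
    exact mul_mem (Subgroup.mem_sup_right ha) (Subgroup.mem_sup_left (h1 ⟨hu,
      (Subgroup.mul_mem_cancel_left _ (Subgroup.mem_iInf.1 ha m)).1 hx⟩))
  exact D.min M (M.isClosed_of_isOpen (Subgroup.isOpen_mono h1 ho)) fun i =>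
    D.wit_of_sup h3 (iInf_le _ _)

theorem exists_order (D : MinSeq G) (hT : ∀ g : G, IsOfFinOrder g) (i : ℕ) : ∃ t : G, orderOf t = D.p i := by
  obtain ⟨g, -, g2, g3⟩ := D.wit i
  have hn : orderOf g ≠ 0 := (hT g).orderOf_pos.ne'
  have hd : D.p i ∣ orderOf g := by
    by_contra hne
    exact g2 (mem_of_coprime ((Nat.Prime.coprime_iff_not_dvd (D.prime i)).2 hne) g3
      (by rw [pow_orderOf_eq_one]; exact one_mem _))
  exact ⟨_, orderOf_pow_orderOf_div hn hd⟩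

theorem claim (D : MinSeq G) (hT : ∀ g : G, IsOfFinOrder g) :
    ∃ (i : ℕ) (t : G), orderOf t = D.p i ∧ (PC t).Infinite := by
  by_contra hne
  have hfin : ∀ (i : ℕ) (t : G), orderOf t = D.p i → ∃ b, ∀ s ∈ PC t, s ≤ b := fun i t ht => by
    by_contra h
    refine hne ⟨i, t, ht, fun hf => h ?_⟩
    exact hf.bddAbove
  obtain ⟨t, ht⟩ := D.exists_order hT 0
  obtain ⟨b₀, hb₀⟩ := hfin 0 t ht
  obtain ⟨y, hy⟩ := D.exists_order hT (b₀ + 1)
  obtain ⟨b₁, hb₁⟩ := hfin _ y hy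
  let k := b₀ + 1 + b₁ + 1
  have l1 : b₀ + 1 ≤ D.p (b₀ + 1) := D.mono.le_apply
  have l2 : k ≤ D.p k := D.mono.le_apply
  have l3 : D.p 0 < D.p (b₀ + 1) := D.mono (by omega)
  have l4 : D.p (b₀ + 1) < D.p k := D.mono (by omega)
  have hr := D.prime k
  have := Fact.mk hr
  obtain ⟨P, hP, p1, p2, ⟨g, g1, g2⟩, p4⟩ := D.stepP k (D.tower k)
  obtain ⟨B, hB, b2, b3, b4⟩ := p4.split hP (D.p (b₀ + 1) - 1)
  have hN := D.normal (k + 1)
  have hNo := D.isOpen (k + 1)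
  have := fi hNo
  have hPo : IsOpen (P : Set G) := Subgroup.isOpen_mono p1 hNo
  have := fi hPo
  have ht1 : t ^ D.p 0 = 1 := ht ▸ pow_orderOf_eq_one t
  have hy1 : y ^ D.p (b₀ + 1) = 1 := hy ▸ pow_orderOf_eq_one y
  have hyB : y ∈ B := (b4 y).mem (a := 1) (D.prime (b₀ + 1)) (by omega) (by rw [pow_one, hy1]; simp)
  let π := QuotientGroup.mk' (D.N (k + 1))
  have := hP.map π (QuotientGroup.mk'_surjective _)
  let A := P.map π ⊓ Subgroup.centralizer (P.map π : Set (G ⧸ D.N (k + 1)))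
  obtain ⟨V, _, S, hS⟩ := exists_sec A fun a ha b hb => hb.2 a ha.1
  have hker : ∀ x ∈ P, (S.ρ.comp π) x = 1 := fun x hx => LinearMap.ext fun v => S.j_inj (by
    rw [MonoidHom.comp_apply, S.j_ρ, ((hS _).2 ⟨v, rfl⟩).2 _ ⟨x, hx, rfl⟩]
    simp)
  have hfix : ∀ (x : G) (q b : ℕ), q.Prime → q < D.p k → b < D.p k → x ^ q = 1 →
      (∀ s ∈ PC x, s ≤ b) → ∀ v, S.ρ (π x) v = v → v = 0 := by
    intro x q b hq h1 h2 h3 h4 v hv
    obtain ⟨z, hz, e⟩ := ((hS _).2 ⟨v, rfl⟩).1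
    by_contra hne
    have h5 := S.j_ρ (π x) v
    rw [hv, ← e] at h5
    obtain ⟨a, ha⟩ := p2 z hz
    obtain ⟨s, s1, s2, s3⟩ := lift_comm hT D.tw hq (d := D.p k - 1) (by omega) h3 hNo (z := z)
      (eq_mul_inv_iff_mul_eq.1 h5).symm
      (fun h => hne (S.j_inj (by rw [← e, S.j_zero]; exact (QuotientGroup.eq_one_iff _).2 h)))
      ⟨_, pow_pos hr.pos a, fun s hs hd => by
        rw [(Nat.prime_dvd_prime_iff_eq hs hr).1 (hs.dvd_of_dvd_pow hd)]
        have := hr.pos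
        omega, ha⟩
    have := h4 s ⟨s1, s3⟩
    omega
  have := hB.map (QuotientGroup.mk' P) (QuotientGroup.mk'_surjective _)
  have hF := frob (QuotientGroup.lift P (S.ρ.comp π) hker) (B.map (QuotientGroup.mk' P))
    (t : G ⧸ P) (D.prime 0) (by rw [← QuotientGroup.mk_pow, ht1]; rfl)
    (by
      rintro _ ⟨z, hz, rfl⟩ hc
      by_contra hne
      obtain ⟨s, s1, s2, s3⟩ := lift_comm hT D.tw (D.prime 0) (d := D.p (b₀ + 1) - 1) (by omega)
        ht1 hPo (z := z) hc (fun h => hne ((QuotientGroup.eq_one_iff _).2 h)) (b3 z hz)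
      have := hb₀ s ⟨s1, s3⟩
      omega)
    (hfix t _ b₀ (D.prime 0) (by omega) (by omega) ht1 hb₀)
    (fun v hv => hfix y _ b₁ (D.prime _) l4 (by omega) hy1 hb₁ v (hv _ ⟨y, hyB, rfl⟩))
  have hco := not_dvd_card P B (c := (· < D.p k)) hr (lt_irrefl _) fun x _ => p4.exp x
  have hPG : IsPGroup (D.p k) (P.map π) := by
    rintro ⟨_, x, hx, rfl⟩
    obtain ⟨a, ha⟩ := p2 x hx
    exact ⟨a, Subtype.ext ((QuotientGroup.eq_one_iff _).2 ha)⟩
  have : Nontrivial (P.map π) := ⟨⟨⟨π g, g, g1, rfl⟩, 1, fun h =>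
    g2 ((QuotientGroup.eq_one_iff _).1 (congrArg Subtype.val h))⟩⟩
  have := hPG.center_nontrivial
  obtain ⟨c, hc⟩ := exists_ne (1 : Subgroup.center (P.map π))
  obtain ⟨v, hv⟩ := (hS c.1.1).1 ⟨c.1.2, fun w hw =>
    congrArg Subtype.val (Subgroup.mem_center_iff.1 c.2 ⟨w, hw⟩)⟩
  obtain ⟨a, ha⟩ := hPG c.1
  have hpow : ∀ n : ℕ, S.j (n • v) = S.j v ^ n := fun n => by
    induction n with
    | zero => simp [S.j_zero]
    | succ n ih => rw [succ_nsmul, S.j_add, ih, pow_succ]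
  refine hc (Subtype.ext (Subtype.ext (Subgroup.mem_bot.1 (mem_of_coprime
    (((Nat.Prime.coprime_iff_not_dvd hr).2 hco).pow_left a) (congrArg Subtype.val ha) ?_))))
  rw [← hv, ← hpow, hF, S.j_zero]
  exact one_mem _

end MinSeq

end Pool.Agent.MP_3312ae_al.HR.B
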