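import Pool.Agent.MP_3312ae_al.HR.B.Basic

/-! Block B, part 2: Sylow towers lift through Frattini extensions; the Frobenius identity. -/

set_option autoImplicit false

namespace Pool.Agent.MP_3312ae_al.HR.B

variable {H : Type} [Group H]

/-- A power of `x` with all prime factors of the exponent in `c` lies in `U`. -/
def Pw (c : ℕ → Prop) (U : Subgroup H) (x : H) : Prop :=
  ∃ n, 0 < n ∧ (∀ s, s.Prime → s ∣ n → c s) ∧ x ^ n ∈ U

theorem Pw.mono {c c' : ℕ → Prop} {U : Subgroup H} {x : H} (h : Pw c U x)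
    (hc : ∀ s, c s → c' s) : Pw c' U x :=
  let ⟨n, h1, h2, h3⟩ := h
  ⟨n, h1, fun s a b => hc s (h2 s a b), h3⟩

theorem Pw.step {c : ℕ → Prop} {U B : Subgroup H} {x : H} {p : ℕ} (hp : p.Prime) (hc : c p)
    (h : Pw c B x) (hB : ∀ y ∈ B, ∃ a, y ^ p ^ a ∈ U) : Pw c U x := by
  obtain ⟨n, h1, h2, h3⟩ := h
  obtain ⟨a, ha⟩ := hB _ h3
  refine ⟨n * p ^ a, Nat.mul_pos h1 (pow_pos hp.pos _), fun s hs hd => ?_, by rwa [pow_mul]⟩
  rcases (Nat.Prime.dvd_mul hs).1 hd with hd | hd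
  · exact h2 s hs hd
  · rwa [(Nat.prime_dvd_prime_iff_eq hs hp).1 (hs.dvd_of_dvd_pow hd)]

theorem Pw.mem {c : ℕ → Prop} {U : Subgroup H} {x : H} (h : Pw c U x) {r a : ℕ} (hr : r.Prime)
    (hc : ¬ c r) (hx : x ^ r ^ a ∈ U) : x ∈ U := by
  obtain ⟨n, -, h2, h3⟩ := h
  exact mem_of_coprime (((Nat.Prime.coprime_iff_not_dvd hr).2 fun hd => hc (h2 r hr hd)).pow_left a)
    hx h3

/-- A tower of normal subgroups from `B` to the top with primary factors, the primes being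
smaller than `c` and decreasing. -/
inductive Tw : ℕ → Subgroup H → Prop
  | top (c : ℕ) : Tw c ⊤
  | step {c p : ℕ} {B B' : Subgroup H} : p.Prime → p < c → B'.Normal → B ≤ B' →
      (∀ x ∈ B', ∃ a, x ^ p ^ a ∈ B) → Tw p B' → Tw c B

theorem Tw.exp {c : ℕ} {B : Subgroup H} (h : Tw c B) (x : H) : Pw (· < c) B x := by
  induction h with
  | top c => exact ⟨1, one_pos, fun s hs hd => absurd (Nat.dvd_one.1 hd) hs.ne_one, trivial⟩
  | step hp hc _ _ hB _ ih => exact (ih.mono fun s hs => hs.trans hc).step hp hc hB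

theorem Tw.split {c : ℕ} {U : Subgroup H} (h : Tw c U) (hU : U.Normal) (d : ℕ) :
    ∃ B : Subgroup H, B.Normal ∧ U ≤ B ∧ (∀ x ∈ B, Pw (d < ·) U x) ∧ ∀ x, Pw (· ≤ d) B x := by
  have triv : ∀ (U : Subgroup H), ∀ x ∈ U, Pw (d < ·) U x := fun U x hx =>
    ⟨1, one_pos, fun s hs hd => absurd (Nat.dvd_one.1 hd) hs.ne_one, by rwa [pow_one]⟩
  induction h with
  | top c => exact ⟨⊤, hU, le_rfl, triv _, fun x =>
      ⟨1, one_pos, fun s hs hd => absurd (Nat.dvd_one.1 hd) hs.ne_one, trivial⟩⟩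
  | @step c p U B' hp hc hN hle hB hT ih =>
    by_cases hd : d < p
    · obtain ⟨B, h1, h2, h3, h4⟩ := ih hN
      exact ⟨B, h1, hle.trans h2, fun x hx => (h3 x hx).step hp hd hB, h4⟩
    · exact ⟨U, hU, le_rfl, triv _, fun x =>
        ((hT.exp x).mono fun s (hs : s < p) => show s ≤ d by omega).step hp (by omega) hB⟩

theorem sup_eq_of_pgroup {P F B : Subgroup H} [F.Normal] [F.FiniteIndex] {p : ℕ} [Fact p.Prime]
    (hP : ¬ p ∣ P.relIndex B) (hF : ∀ x ∈ B, ∃ a, x ^ p ^ a ∈ F) : B ≤ P ⊔ F := by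
  have h1 : IsPGroup p (B ⧸ F.subgroupOf B) := fun x => by
    obtain ⟨x, rfl⟩ := QuotientGroup.mk_surjective x
    obtain ⟨a, ha⟩ := hF x x.2
    exact ⟨a, by rw [← QuotientGroup.mk_pow, QuotientGroup.eq_one_iff]; exact ha⟩
  obtain ⟨n, hn⟩ := IsPGroup.iff_card.1 h1
  have h2 : (P ⊔ F).relIndex B ∣ p ^ n :=
    hn ▸ Subgroup.relIndex_dvd_of_le_left B (le_sup_right : F ≤ P ⊔ F)
  obtain ⟨k, -, hk⟩ := (Nat.dvd_prime_pow Fact.out).1 h2
  rcases k with _ | k
  · exact Subgroup.relIndex_eq_one.1 hk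
  · refine absurd (Dvd.dvd.trans ?_ (Subgroup.relIndex_dvd_of_le_left B
      (le_sup_left : P ≤ P ⊔ F))) hP
    rw [hk]
    exact dvd_pow_self p k.succ_ne_zero

theorem Tw.lift {c : ℕ} {F : Subgroup H} (h : Tw c F) : F.Normal → ∀ U : Subgroup H, U.Normal →
    U.FiniteIndex → U ≤ F → (∀ M, U ≤ M → M ⊔ F = ⊤ → M = ⊤) → Tw c U := by
  induction h with
  | top c =>
    intro _ U _ _ _ hM
    rw [hM U le_rfl (sup_top_eq U)]
    exact Tw.top c
  | @step c p F B hp hc hN hle hB _ ih =>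
    intro hF U hU hU' hUF hM
    have := Fact.mk hp
    have := Subgroup.finiteIndex_of_le hUF
    obtain ⟨P, s1, s2, s3, s4, s5, -⟩ := sy U B (hUF.trans hle) p
    have h1 := sup_eq_of_pgroup s5 hB
    have h2 : P.Normal := Subgroup.normalizer_eq_top_iff.1 (hM _
      (s1.trans Subgroup.le_normalizer) (top_le_iff.1 ((s4 hN).ge.trans
        (sup_le le_sup_left (h1.trans (sup_le_sup_right Subgroup.le_normalizer _))))))
    refine Tw.step hp hc h2 s1 s3 (ih hN P h2 (Subgroup.finiteIndex_of_le s1) s2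
      fun M h3 h4 => hM M (s1.trans h3) (top_le_iff.1 (h4.ge.trans
        (sup_le le_sup_left (h1.trans (sup_le_sup_right h3 _))))))

/-- The Frobenius identity. -/
theorem frob {X V : Type} [Group X] [Finite X] [AddCommGroup V] (ρ : X →* Module.End ℤ V)
    (Y : Subgroup X) [hY : Y.Normal] (t : X) {p : ℕ} (hp : p.Prime) (ht : t ^ p = 1)
    (h1 : ∀ y ∈ Y, Commute t y → y = 1) (h2 : ∀ v, ρ t v = v → v = 0)
    (h3 : ∀ v, (∀ y ∈ Y, ρ y v = v) → v = 0) (v : V) : Nat.card Y • v = 0 := by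
  classical
  have := Fintype.ofFinite Y
  have hNt : ∑ i ∈ Finset.range p, ρ (t ^ i) = 0 := by
    refine LinearMap.ext fun v => h2 _ ?_
    rw [← Module.End.mul_apply, Finset.mul_sum]
    simp only [← map_mul, ← pow_succ']
    have e1 := Finset.sum_range_succ (fun i => ρ (t ^ i)) p
    have e2 := Finset.sum_range_succ' (fun i => ρ (t ^ i)) p
    rw [e1, ht, pow_zero] at e2
    rw [add_right_cancel e2]
  have hNY : ∑ y : Y, ρ y = 0 := by
    refine LinearMap.ext fun v => h3 _ fun y hy => ?_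
    rw [← Module.End.mul_apply, Finset.mul_sum]
    simp only [← map_mul]
    rw [Fintype.sum_equiv (Equiv.mulLeft (⟨y, hy⟩ : Y)) (fun x : Y => ρ (y * x))
      (fun x : Y => ρ x) fun _ => rfl]
  have hi : ∀ i ∈ Finset.range (p - 1), ∑ y : Y, ρ (y * t ^ (i + 1) * (y : X)⁻¹) = 0 := by
    intro i hi
    let f : Y → Y := fun y => y * ⟨t ^ (i + 1) * (y : X)⁻¹ * (t ^ (i + 1))⁻¹,
      hY.conj_mem _ (Y.inv_mem y.2) _⟩
    have hf : Function.Injective f := fun a b hab => by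
      have e : (a : X) * (t ^ (i + 1) * (a : X)⁻¹ * (t ^ (i + 1))⁻¹) =
          b * (t ^ (i + 1) * (b : X)⁻¹ * (t ^ (i + 1))⁻¹) := congrArg Subtype.val hab
      have hc : Commute (t ^ (i + 1)) ((b : X)⁻¹ * a) := by
        have : (b : X)⁻¹ * a * t ^ (i + 1) =
            (b : X)⁻¹ * (a * (t ^ (i + 1) * (a : X)⁻¹ * (t ^ (i + 1))⁻¹)) * t ^ (i + 1) * a := by
          group
        rw [Commute, SemiconjBy, this, e]
        group
      have hco : (i + 1).Coprime p := by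
        rw [Finset.mem_range] at hi
        exact (Nat.coprime_of_lt_prime (by omega) (by omega) hp).symm
      have hz : t ∈ Subgroup.centralizer {(b : X)⁻¹ * a} :=
        mem_of_coprime hco (Subgroup.mem_centralizer_singleton_iff.2 hc) (ht ▸ one_mem _)
      have := h1 _ (Y.mul_mem (Y.inv_mem b.2) a.2) (Subgroup.mem_centralizer_singleton_iff.1 hz)
      exact Subtype.ext (inv_mul_eq_one.1 this).symm
    rw [← zero_mul (ρ (t ^ (i + 1))), ← hNY, Finset.sum_mul]
    refine Fintype.sum_bijective f (Finite.injective_iff_bijective.1 hf) _ _ fun y => ?_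
    rw [← map_mul]
    congr 1
    simp only [f, Subgroup.coe_mul]
    group
  have hs : ∑ y : Y, ρ y * (∑ i ∈ Finset.range p, ρ (t ^ i)) * ρ (y : X)⁻¹ = 0 := by
    simp only [hNt, mul_zero, zero_mul, Finset.sum_const_zero]
  simp only [Finset.mul_sum, Finset.sum_mul, ← map_mul] at hs
  rw [Finset.sum_comm, ← Nat.sub_add_cancel hp.one_le, Finset.sum_range_succ',
    Finset.sum_eq_zero hi] at hs
  have := LinearMap.congr_fun hs v
  simpa [Nat.card_eq_fintype_card] using this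

end Pool.Agent.MP_3312ae_al.HR.B
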